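import Mathlib

/-!
# Boolean algebras of subspaces closed under closed spans

Helper file for MP_44afb3_an.  We show that a Boolean algebra of subspaces of a Hilbert space is
closed under arbitrary closed spans iff it is closed under arbitrary intersections, and that such an
algebra carries (locally) a strictly positive continuous submeasure.
-/

set_option autoImplicit false
open Set Filter Topology

namespace Pool.Agent.Lib.MP_44afb3_an

section defs

variable {H : Type*} [NormedAddCommGroup H] [InnerProductSpace ℂ H]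

/-- `M ∨ N`: the closed linear span of the union of two subspaces. -/
def cjoin (M N : Submodule ℂ H) : Submodule ℂ H := (M ⊔ N).topologicalClosure

/-- `E` is a Boolean algebra of (closed) subspaces: it contains `0` and the whole space, is closed
under `M ∧ N = M ∩ N` and `M ∨ N`, is distributive, and every member has a complement in `E`. -/
structure IsBooleanAlg (E : Set (Submodule ℂ H)) : Prop where
  isClosed : ∀ M ∈ E, IsClosed (M : Set H)
  bot_mem : (⊥ : Submodule ℂ H) ∈ E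
  top_mem : (⊤ : Submodule ℂ H) ∈ E
  inf_mem : ∀ M ∈ E, ∀ N ∈ E, M ⊓ N ∈ E
  join_mem : ∀ M ∈ E, ∀ N ∈ E, cjoin M N ∈ E
  distrib : ∀ L ∈ E, ∀ M ∈ E, ∀ N ∈ E, L ⊓ cjoin M N = cjoin (L ⊓ M) (L ⊓ N)
  compl : ∀ M ∈ E, ∃ M' ∈ E, M ⊓ M' = ⊥ ∧ cjoin M M' = ⊤

/-- `E` is closed under closed linear spans of arbitrary subfamilies. -/
def SpanClosed (E : Set (Submodule ℂ H)) : Prop :=
  ∀ F : Set (Submodule ℂ H), F ⊆ E → (sSup F).topologicalClosure ∈ E

/-- `E` is closed under intersections of arbitrary subfamilies. -/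
def InterClosed (E : Set (Submodule ℂ H)) : Prop :=
  ∀ F : Set (Submodule ℂ H), F ⊆ E → sInf F ∈ E

end defs

section basic

variable {H : Type*} [NormedAddCommGroup H] [InnerProductSpace ℂ H]

lemma le_cjoin_left (M N : Submodule ℂ H) : M ≤ cjoin M N :=
  le_sup_left.trans (Submodule.le_topologicalClosure _)

lemma le_cjoin_right (M N : Submodule ℂ H) : N ≤ cjoin M N :=
  le_sup_right.trans (Submodule.le_topologicalClosure _)

lemma cjoin_le {L M N : Submodule ℂ H} (hL : IsClosed (L : Set H)) (h1 : M ≤ L) (h2 : N ≤ L) :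
    cjoin M N ≤ L :=
  Submodule.topologicalClosure_minimal _ (sup_le h1 h2) hL

/-- The Boolean algebra structure on `E`. -/
noncomputable abbrev boolE {E : Set (Submodule ℂ H)} (hB : IsBooleanAlg E) :
    BooleanAlgebra ↥E := by
  letI lat : Lattice ↥E :=
    { (inferInstance : PartialOrder ↥E) with
      sup := fun M N => ⟨cjoin M.1 N.1, hB.join_mem _ M.2 _ N.2⟩
      inf := fun M N => ⟨M.1 ⊓ N.1, hB.inf_mem _ M.2 _ N.2⟩
      le_sup_left := fun M N => le_cjoin_left M.1 N.1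
      le_sup_right := fun M N => le_cjoin_right M.1 N.1
      sup_le := fun M N L h1 h2 => cjoin_le (hB.isClosed _ L.2) h1 h2
      inf_le_left := fun M N => inf_le_left (a := M.1) (b := N.1)
      inf_le_right := fun M N => inf_le_right (a := M.1) (b := N.1)
      le_inf := fun L M N h1 h2 => le_inf (show L.1 ≤ M.1 from h1) (show L.1 ≤ N.1 from h2) }
  letI dl : DistribLattice ↥E := DistribLattice.ofInfSupLe
    (fun L M N => (hB.distrib _ L.2 _ M.2 _ N.2).le)
  letI bo : BoundedOrder ↥E :=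
    { top := ⟨⊤, hB.top_mem⟩
      bot := ⟨⊥, hB.bot_mem⟩
      le_top := fun M => le_top (a := M.1)
      bot_le := fun M => bot_le (a := M.1) }
  haveI cl : ComplementedLattice ↥E := ⟨fun M => by
    obtain ⟨M', hM', h1, h2⟩ := hB.compl M.1 M.2
    refine ⟨⟨M', hM'⟩, ?_⟩
    rw [isCompl_iff, disjoint_iff, codisjoint_iff]
    exact ⟨Subtype.ext h1, Subtype.ext h2⟩⟩
  exact DistribLattice.booleanAlgebraOfComplemented ↥E

end basic



section equiv

variable {H : Type*} [NormedAddCommGroup H] [InnerProductSpace ℂ H]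

lemma sInf_isClosed {F : Set (Submodule ℂ H)} (h : ∀ M ∈ F, IsClosed (M : Set H)) :
    IsClosed ((sInf F : Submodule ℂ H) : Set H) := by
  rw [Submodule.coe_sInf]
  exact isClosed_biInter h

lemma le_clSpan {S : Set (Submodule ℂ H)} {M : Submodule ℂ H} (h : M ∈ S) :
    M ≤ (sSup S).topologicalClosure :=
  (le_sSup h).trans (Submodule.le_topologicalClosure _)

lemma clSpan_le {S : Set (Submodule ℂ H)} {M : Submodule ℂ H} (hM : IsClosed (M : Set H))
    (h : ∀ K ∈ S, K ≤ M) : (sSup S).topologicalClosure ≤ M :=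
  Submodule.topologicalClosure_minimal _ (sSup_le h) hM

/-- A representation of a Boolean algebra by closed subspaces, with closed spans of arbitrary
families in the range. -/
structure Rep {B : Type*} [BooleanAlgebra B] (e : B → Submodule ℂ H) : Prop where
  closed : ∀ b, IsClosed (e b : Set H)
  le_iff : ∀ a b, e a ≤ e b ↔ a ≤ b
  inf : ∀ a b, e (a ⊓ b) = e a ⊓ e b
  top : e ⊤ = ⊤
  span : ∀ S : Set B, ∃ s, e s = (sSup (e '' S)).topologicalClosure

/-- The main step: the range of a representation is closed under intersections. -/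
theorem Rep.sInf_mem {B : Type*} [BooleanAlgebra B] {e : B → Submodule ℂ H} (he : Rep e)
    (F : Set B) : ∃ g, e g = sInf (e '' F) := by
  set I : Submodule ℂ H := sInf (e '' F) with hI
  have hIcl : IsClosed (I : Set H) := sInf_isClosed (by
    rintro _ ⟨b, _, rfl⟩
    exact he.closed b)
  -- the largest member below `I`
  obtain ⟨G, hG⟩ := he.span {b | e b ≤ I}
  have hGI : e G ≤ I := by
    rw [hG]
    refine clSpan_le hIcl ?_
    rintro _ ⟨b, hb, rfl⟩
    exact hb
  have hGmax : ∀ b : B, e b ≤ I → b ≤ G := by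
    intro b hb
    rw [← he.le_iff, hG]
    exact le_clSpan ⟨b, hb, rfl⟩
  refine ⟨G, le_antisymm hGI ?_⟩
  intro y hy
  -- members above `I`
  let D : Set B := {D | I ≤ e D}
  have hDinf : ∀ X : B, (∀ D' ∈ D, X ≤ D') → e X ≤ I := by
    intro X hX
    apply le_sInf
    rintro _ ⟨b, hb, rfl⟩
    rw [he.le_iff]
    have hbI : I ≤ e b := sInf_le (mem_image_of_mem e hb)
    exact hX b hbI
  have hDtop : (⊤ : B) ∈ D := by
    show I ≤ e ⊤
    rw [he.top]
    exact le_top
  have hDmeet : ∀ A ∈ D, ∀ A' ∈ D, A ⊓ A' ∈ D := by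
    intro A hA A' hA'
    show I ≤ e (A ⊓ A')
    rw [he.inf]
    exact le_inf hA hA'
  -- the approximation step
  have step : ∀ (A : B) (n : ℕ), A ∈ D → ∃ A' : B, A' ∈ D ∧ A' ≤ A ∧
      ∃ z : H, z ∈ e (G ⊔ (A ⊓ A'ᶜ)) ∧ ‖y - z‖ < 1 / ((n : ℝ) + 1) := by
    intro A n hA
    let S : Set B := {K | ∃ A' : B, A' ∈ D ∧ A' ≤ A ∧ K = G ⊔ (A ⊓ A'ᶜ)}
    obtain ⟨T, hTdef⟩ := he.span S
    have hT : ∀ A' : B, A' ∈ D → A' ≤ A → G ⊔ (A ⊓ A'ᶜ) ≤ T := by
      intro A' h1 h2
      rw [← he.le_iff, hTdef]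
      exact le_clSpan ⟨_, ⟨A', h1, h2, rfl⟩, rfl⟩
    have hGT : G ≤ T := le_sup_left.trans (hT A hA le_rfl)
    have hAT : A ≤ T := by
      have hX1 : ∀ A' ∈ D, A ⊓ Tᶜ ≤ A' := by
        intro A' hA'
        have h1 := hT (A ⊓ A') (hDmeet A hA A' hA') inf_le_left
        have h2 : A ⊓ (A ⊓ A')ᶜ ≤ T := le_sup_right.trans h1
        have h3 : A ⊓ Tᶜ ⊓ (A ⊓ A')ᶜ ≤ ⊥ := by
          calc A ⊓ Tᶜ ⊓ (A ⊓ A')ᶜ ≤ (A ⊓ (A ⊓ A')ᶜ) ⊓ Tᶜ := by
                refine le_inf (le_inf ?_ inf_le_right) ?_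
                · exact inf_le_left.trans inf_le_left
                · exact inf_le_left.trans inf_le_right
            _ ≤ T ⊓ Tᶜ := inf_le_inf_right _ h2
            _ = ⊥ := inf_compl_eq_bot
        have h4 : A ⊓ Tᶜ ≤ A ⊓ A' := by
          have := disjoint_iff.2 (le_bot_iff.1 h3)
          exact (disjoint_compl_right_iff (x := A ⊓ Tᶜ) (y := A ⊓ A')).1 this
        exact h4.trans inf_le_right
      have h5 : e (A ⊓ Tᶜ) ≤ I := hDinf _ hX1
      have h6 : A ⊓ Tᶜ ≤ T := (hGmax _ h5).trans hGT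
      have h7 : A ⊓ Tᶜ ≤ ⊥ := by
        calc A ⊓ Tᶜ ≤ T ⊓ Tᶜ := le_inf h6 inf_le_right
          _ = ⊥ := inf_compl_eq_bot
      exact (disjoint_compl_right_iff (x := A) (y := T)).1 (disjoint_iff.2 (le_bot_iff.1 h7))
    have hyT : y ∈ closure ((sSup (e '' S) : Submodule ℂ H) : Set H) := by
      have h1 : y ∈ e T := (he.le_iff _ _).2 hAT (hA hy)
      rw [hTdef, ← SetLike.mem_coe, Submodule.topologicalClosure_coe] at h1
      exact h1
    obtain ⟨z, hz, hyz⟩ := Metric.mem_closure_iff.1 hyT (1 / ((n : ℝ) + 1)) (by positivity)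
    have hSne : (e '' S).Nonempty := ⟨_, _, ⟨A, hA, le_rfl, rfl⟩, rfl⟩
    have hSdir : DirectedOn (· ≤ ·) (e '' S) := by
      rintro _ ⟨_, ⟨A₁, h1, h2, rfl⟩, rfl⟩ _ ⟨_, ⟨A₂, h3, h4, rfl⟩, rfl⟩
      refine ⟨_, ⟨_, ⟨A₁ ⊓ A₂, hDmeet _ h1 _ h3, inf_le_left.trans h2, rfl⟩, rfl⟩, ?_, ?_⟩
      · exact (he.le_iff _ _).2 
          (sup_le_sup_left (inf_le_inf_left _ (compl_le_compl inf_le_left)) _)
      · exact (he.le_iff _ _).2 
          (sup_le_sup_left (inf_le_inf_left _ (compl_le_compl inf_le_right)) _)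
    rw [SetLike.mem_coe, Submodule.mem_sSup_of_directed hSne hSdir] at hz
    obtain ⟨_, ⟨_, ⟨A', h1, h2, rfl⟩, rfl⟩, hz⟩ := hz
    refine ⟨A', h1, h2, z, hz, ?_⟩
    rw [← dist_eq_norm]
    exact hyz
  choose! nx hnx1 hnx2 zf hzf1 hzf2 using step
  let A : ℕ → B := fun n => Nat.rec ⊤ (fun n A => nx A n) n
  have hA : ∀ n, A (n + 1) = nx (A n) n := fun n => rfl
  have hAD : ∀ n, A n ∈ D := by
    intro n
    induction n with
    | zero => exact hDtop
    | succ n ih =>
      rw [hA]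
      exact hnx1 _ n ih
  have hAanti : Antitone A := antitone_nat_of_succ_le fun n => by
    rw [hA]
    exact hnx2 _ n (hAD n)
  let C : ℕ → B := fun n => A n ⊓ (A (n + 1))ᶜ
  let z : ℕ → H := fun n => zf (A n) n
  have hz1 : ∀ n, z n ∈ e (G ⊔ C n) := fun n => hzf1 (A n) n (hAD n)
  have hz2 : ∀ n, ‖y - z n‖ < 1 / ((n : ℝ) + 1) := fun n => hzf2 (A n) n (hAD n)
  have hzlim : Tendsto z atTop (𝓝 y) := by
    rw [tendsto_iff_norm_sub_tendsto_zero]
    refine squeeze_zero (fun _ => norm_nonneg _) (fun n => ?_)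
      tendsto_one_div_add_atTop_nhds_zero_nat
    rw [norm_sub_rev]
    exact (hz2 n).le
  have hCdisj : ∀ m n, m ≠ n → C m ≤ (C n)ᶜ := by
    have h1 : ∀ m n, m < n → C m ⊓ C n = ⊥ := by
      intro m n hmn
      rw [← le_bot_iff]
      calc C m ⊓ C n ≤ (A (m + 1))ᶜ ⊓ A n := inf_le_inf inf_le_right inf_le_left
        _ ≤ (A (m + 1))ᶜ ⊓ A (m + 1) := inf_le_inf_left _ (hAanti hmn)
        _ = ⊥ := compl_inf_eq_bot
    intro m n hmn
    rw [le_compl_iff_disjoint_right, disjoint_iff]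
    rcases lt_or_gt_of_ne hmn with h | h
    · exact h1 m n h
    · rw [inf_comm]
      exact h1 n m h
  -- even and odd parts
  obtain ⟨P, hP⟩ := he.span (range fun k => G ⊔ C (2 * k))
  obtain ⟨Q, hQ⟩ := he.span (range fun k => G ⊔ C (2 * k + 1))
  have hPle : ∀ R : B, (∀ k, G ⊔ C (2 * k) ≤ R) → P ≤ R := by
    intro R hR
    rw [← he.le_iff, hP]
    refine clSpan_le (he.closed R) ?_
    rintro _ ⟨_, ⟨k, rfl⟩, rfl⟩
    exact (he.le_iff _ _).2 (hR k)
  have hQle : ∀ R : B, (∀ k, G ⊔ C (2 * k + 1) ≤ R) → Q ≤ R := by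
    intro R hR
    rw [← he.le_iff, hQ]
    refine clSpan_le (he.closed R) ?_
    rintro _ ⟨_, ⟨k, rfl⟩, rfl⟩
    exact (he.le_iff _ _).2 (hR k)
  have hPmem : ∀ k, e (G ⊔ C (2 * k)) ≤ e P := by
    intro k
    rw [hP]
    exact le_clSpan ⟨_, ⟨k, rfl⟩, rfl⟩
  have hQmem : ∀ k, e (G ⊔ C (2 * k + 1)) ≤ e Q := by
    intro k
    rw [hQ]
    exact le_clSpan ⟨_, ⟨k, rfl⟩, rfl⟩
  have hyP : y ∈ e P := by
    have h1 : Tendsto (fun k : ℕ => z (2 * k)) atTop (𝓝 y) :=
      hzlim.comp (tendsto_id.const_mul_atTop' (by norm_num))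
    exact (he.closed P).mem_of_tendsto h1 (Eventually.of_forall fun k => hPmem k (hz1 (2 * k)))
  have hyQ : y ∈ e Q := by
    have h1 : Tendsto (fun k : ℕ => z (2 * k + 1)) atTop (𝓝 y) :=
      hzlim.comp ((tendsto_add_atTop_nat 1).comp (tendsto_id.const_mul_atTop' (by norm_num)))
    exact (he.closed Q).mem_of_tendsto h1
      (Eventually.of_forall fun k => hQmem k (hz1 (2 * k + 1)))
  have hPQ : P ⊓ Q ≤ G := by
    have h1 : ∀ l, P ≤ G ⊔ (C (2 * l + 1))ᶜ := fun l =>
      hPle _ fun k => sup_le_sup_left (hCdisj (2 * k) (2 * l + 1) (by omega)) _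
    have h2 : ∀ l, G ⊔ C (2 * l + 1) ≤ G ⊔ Pᶜ := by
      intro l
      refine sup_le le_sup_left ?_
      have h3 : P ⊓ C (2 * l + 1) ≤ G := by
        calc P ⊓ C (2 * l + 1) ≤ (G ⊔ (C (2 * l + 1))ᶜ) ⊓ C (2 * l + 1) :=
              inf_le_inf_right _ (h1 l)
          _ = (G ⊓ C (2 * l + 1)) ⊔ ((C (2 * l + 1))ᶜ ⊓ C (2 * l + 1)) := inf_sup_right _ _ _
          _ ≤ G := by
              rw [compl_inf_eq_bot, sup_bot_eq]
              exact inf_le_left
      calc C (2 * l + 1) = (P ⊔ Pᶜ) ⊓ C (2 * l + 1) := by rw [sup_compl_eq_top, top_inf_eq]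
        _ = (P ⊓ C (2 * l + 1)) ⊔ (Pᶜ ⊓ C (2 * l + 1)) := inf_sup_right _ _ _
        _ ≤ G ⊔ Pᶜ := sup_le_sup h3 inf_le_left
    have h4 : Q ≤ G ⊔ Pᶜ := hQle _ h2
    calc P ⊓ Q ≤ P ⊓ (G ⊔ Pᶜ) := inf_le_inf_left _ h4
      _ = (P ⊓ G) ⊔ (P ⊓ Pᶜ) := inf_sup_left _ _ _
      _ ≤ G := by
          rw [inf_compl_eq_bot, sup_bot_eq]
          exact inf_le_right
  have h5 : y ∈ e (P ⊓ Q) := by
    rw [he.inf]
    exact ⟨hyP, hyQ⟩
  exact (he.le_iff _ _).2 hPQ h5


/-- A Boolean algebra of subspaces closed under closed spans gives a representation. -/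
lemma rep_of_spanClosed {E : Set (Submodule ℂ H)} (hB : IsBooleanAlg E) (hS : SpanClosed E) :
    letI := boolE hB
    Rep (fun M : ↥E => M.1) := by
  letI := boolE hB
  exact
    { closed := fun M => hB.isClosed _ M.2
      le_iff := fun _ _ => Iff.rfl
      inf := fun _ _ => rfl
      top := rfl
      span := fun S => ⟨⟨_, hS ((fun M : ↥E => M.1) '' S) (by
        rintro _ ⟨M, _, rfl⟩
        exact M.2)⟩, rfl⟩ }

/-- Closed under closed spans implies closed under intersections. -/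
theorem interClosed_of_spanClosed {E : Set (Submodule ℂ H)} (hB : IsBooleanAlg E)
    (hS : SpanClosed E) : InterClosed E := by
  intro F hF
  letI := boolE hB
  obtain ⟨g, hg⟩ := (rep_of_spanClosed hB hS).sInf_mem {M : ↥E | M.1 ∈ F}
  have h1 : (fun M : ↥E => M.1) '' {M : ↥E | M.1 ∈ F} = F := by
    ext M
    constructor
    · rintro ⟨M, hM, rfl⟩
      exact hM
    · intro hM
      exact ⟨⟨M, hF hM⟩, hM, rfl⟩
  rw [h1] at hg
  rw [← hg]
  exact g.2

end equiv

/-! ### Duality -/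

section dual

variable {H : Type*} [NormedAddCommGroup H] [InnerProductSpace ℂ H] [CompleteSpace H]

lemma oo_eq {M : Submodule ℂ H} (hM : IsClosed (M : Set H)) : Mᗮᗮ = M := by
  rw [Submodule.orthogonal_orthogonal_eq_closure, hM.submodule_topologicalClosure_eq]

lemma cjoin_orth (M N : Submodule ℂ H) : (cjoin M N)ᗮ = Mᗮ ⊓ Nᗮ := by
  unfold cjoin
  rw [Submodule.orthogonal_closure, Submodule.inf_orthogonal]

lemma inf_orth {M N : Submodule ℂ H} (hM : IsClosed (M : Set H)) (hN : IsClosed (N : Set H)) :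
    (M ⊓ N)ᗮ = cjoin Mᗮ Nᗮ := by
  unfold cjoin
  rw [← Submodule.orthogonal_orthogonal_eq_closure, ← Submodule.inf_orthogonal, oo_eq hM, oo_eq hN]

/-- the dual family -/
def dualFam (E : Set (Submodule ℂ H)) : Set (Submodule ℂ H) := (fun M : Submodule ℂ H => Mᗮ) '' E

lemma dualFam_boolean {E : Set (Submodule ℂ H)} (hB : IsBooleanAlg E) :
    IsBooleanAlg (dualFam E) where
  isClosed := by
    rintro _ ⟨M, _, rfl⟩
    exact Submodule.isClosed_orthogonal M
  bot_mem := ⟨⊤, hB.top_mem, Submodule.top_orthogonal_eq_bot⟩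
  top_mem := ⟨⊥, hB.bot_mem, Submodule.bot_orthogonal_eq_top⟩
  inf_mem := by
    rintro _ ⟨M, hM, rfl⟩ _ ⟨N, hN, rfl⟩
    exact ⟨cjoin M N, hB.join_mem M hM N hN, cjoin_orth M N⟩
  join_mem := by
    rintro _ ⟨M, hM, rfl⟩ _ ⟨N, hN, rfl⟩
    exact ⟨M ⊓ N, hB.inf_mem M hM N hN, inf_orth (hB.isClosed M hM) (hB.isClosed N hN)⟩
  distrib := by
    rintro _ ⟨L, hL, rfl⟩ _ ⟨M, hM, rfl⟩ _ ⟨N, hN, rfl⟩
    show Lᗮ ⊓ cjoin Mᗮ Nᗮ = cjoin (Lᗮ ⊓ Mᗮ) (Lᗮ ⊓ Nᗮ)
    rw [← inf_orth (hB.isClosed M hM) (hB.isClosed N hN), ← cjoin_orth, ← cjoin_orth,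
      ← cjoin_orth, ← inf_orth (hB.isClosed _ (hB.join_mem L hL M hM))
        (hB.isClosed _ (hB.join_mem L hL N hN))]
    congr 1
    letI := boolE hB
    have h := sup_inf_left (⟨L, hL⟩ : ↥E) ⟨M, hM⟩ ⟨N, hN⟩
    exact congrArg Subtype.val h
  compl := by
    rintro _ ⟨M, hM, rfl⟩
    obtain ⟨M', hM', h1, h2⟩ := hB.compl M hM
    refine ⟨_, ⟨M', hM', rfl⟩, ?_, ?_⟩
    · show Mᗮ ⊓ M'ᗮ = ⊥
      rw [← cjoin_orth, h2, Submodule.top_orthogonal_eq_bot]
    · show cjoin Mᗮ M'ᗮ = ⊤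
      rw [← inf_orth (hB.isClosed M hM) (hB.isClosed M' hM'), h1,
        Submodule.bot_orthogonal_eq_top]

lemma clSpan_orth (S : Set (Submodule ℂ H)) :
    (sSup S).topologicalClosure = (sInf ((fun M : Submodule ℂ H => Mᗮ) '' S))ᗮ := by
  rw [← Submodule.orthogonal_orthogonal_eq_closure]
  congr 1
  rw [← Submodule.sInf_orthogonal, sInf_image]

/-- Closed under intersections implies closed under closed spans. -/
theorem spanClosed_of_interClosed {E : Set (Submodule ℂ H)} (hB : IsBooleanAlg E)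
    (hI : InterClosed E) : SpanClosed E := by
  have hD := dualFam_boolean hB
  have hDS : SpanClosed (dualFam E) := by
    intro F hF
    rw [clSpan_orth]
    refine ⟨_, hI _ ?_, rfl⟩
    rintro _ ⟨K, hK, rfl⟩
    obtain ⟨M, hM, rfl⟩ := hF hK
    show Mᗮᗮ ∈ E
    rw [oo_eq (hB.isClosed M hM)]
    exact hM
  have hDI := interClosed_of_spanClosed hD hDS
  intro F hF
  rw [clSpan_orth]
  have h1 : sInf ((fun M : Submodule ℂ H => Mᗮ) '' F) ∈ dualFam E := by
    apply hDI
    rintro _ ⟨M, hM, rfl⟩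
    exact ⟨M, hF hM, rfl⟩
  obtain ⟨L, hL, hL2⟩ := h1
  rw [← hL2]
  show Lᗮᗮ ∈ E
  rw [oo_eq (hB.isClosed L hL)]
  exact hL

theorem spanClosed_iff_interClosed {E : Set (Submodule ℂ H)} (hB : IsBooleanAlg E) :
    SpanClosed E ↔ InterClosed E :=
  ⟨interClosed_of_spanClosed hB, spanClosed_of_interClosed hB⟩

end dual


/-! ### The abstract submeasure theorem -/

section abs

variable {B : Type*} [Lattice B] [OrderBot B]

/-- the order properties used -/
structure SigmaLat (B : Type*) [Lattice B] [OrderBot B] : Prop where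
  lub : ∀ a : ℕ → B, Monotone a → ∃ s, IsLUB (range a) s
  glb : ∀ a : ℕ → B, Antitone a → ∃ g, IsGLB (range a) g
  cod : ∀ (a : ℕ → B) (g b : B), Antitone a → IsGLB (range a) g →
    IsGLB (range fun n => b ⊔ a n) (b ⊔ g)

/-- monotone functions that are sequentially order continuous in both directions -/
structure ContCap (ψ : B → ℝ) : Prop where
  mono : Monotone ψ
  bot : ψ ⊥ = 0
  up : ∀ (a : ℕ → B) (s : B), Monotone a → IsLUB (range a) s →
    Tendsto (fun n => ψ (a n)) atTop (𝓝 (ψ s))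
  down : ∀ (a : ℕ → B) (g : B), Antitone a → IsGLB (range a) g →
    Tendsto (fun n => ψ (a n)) atTop (𝓝 (ψ g))

lemma ContCap.nonneg {ψ : B → ℝ} (h : ContCap ψ) (a : B) : 0 ≤ ψ a := by
  rw [← h.bot]
  exact h.mono bot_le

lemma ContCap.shift {ψ : B → ℝ} (hB : SigmaLat B) (h : ContCap ψ) (f : B) :
    ContCap (fun v => ψ (f ⊔ v) - ψ f) where
  mono := by
    intro a b hab
    have := h.mono (sup_le_sup_left hab f)
    show ψ (f ⊔ a) - ψ f ≤ ψ (f ⊔ b) - ψ f
    linarith
  bot := by simp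
  up := by
    intro a s ha hs
    have h1 : Monotone (fun n => f ⊔ a n) := fun m n hmn => sup_le_sup_left (ha hmn) f
    have h2 : IsLUB (range fun n => f ⊔ a n) (f ⊔ s) := by
      constructor
      · rintro _ ⟨n, rfl⟩
        exact sup_le_sup_left (hs.1 ⟨n, rfl⟩) f
      · intro c hc
        refine sup_le ?_ ?_
        · exact le_sup_left.trans (hc ⟨0, rfl⟩)
        · apply hs.2
          rintro _ ⟨n, rfl⟩
          exact le_sup_right.trans (hc ⟨n, rfl⟩)
    exact (h.up _ _ h1 h2).sub_const _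
  down := by
    intro a g ha hg
    have h1 : Antitone (fun n => f ⊔ a n) := fun m n hmn => sup_le_sup_left (ha hmn) f
    exact (h.down _ _ h1 (hB.cod a g f ha hg)).sub_const _

lemma ContCap.add {ψ θ : B → ℝ} (h : ContCap ψ) (h' : ContCap θ) :
    ContCap (fun v => ψ v + θ v) where
  mono := fun a b hab => add_le_add (h.mono hab) (h'.mono hab)
  bot := by
    show ψ ⊥ + θ ⊥ = 0
    rw [h.bot, h'.bot, add_zero]
  up := fun a s ha hs => (h.up a s ha hs).add (h'.up a s ha hs)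
  down := fun a g ha hg => (h.down a g ha hg).add (h'.down a g ha hg)

lemma ContCap.sum {ι : Type*} (s : Finset ι) {ψ : ι → B → ℝ} (h : ∀ i ∈ s, ContCap (ψ i)) :
    ContCap (fun v => ∑ i ∈ s, ψ i v) where
  mono := fun a b hab => Finset.sum_le_sum fun i hi => (h i hi).mono hab
  bot := Finset.sum_eq_zero fun i hi => (h i hi).bot
  up := fun a t ha ht => tendsto_finsetSum _ fun i hi => (h i hi).up a t ha ht
  down := fun a g ha hg => tendsto_finsetSum _ fun i hi => (h i hi).down a g ha hg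

/-- The key lemma: joint continuity of the join at `⊥`. -/
lemma key (hB : SigmaLat B) {Ψ : B → ℝ} (h : ContCap Ψ) (hpos : ∀ a, Ψ a = 0 → a = ⊥)
    {ε : ℝ} (hε : 0 < ε) :
    ∃ Θ : B → ℝ, ContCap Θ ∧ (∀ a, Ψ a ≤ Θ a) ∧ ∃ η : ℝ, 0 < η ∧
      ∀ x y, Θ x < η → Θ y < η → Ψ (x ⊔ y) < ε := by
  classical
  -- the function attached to a finite set
  let Th : Finset B → B → ℝ := fun F v => Ψ v + ∑ f ∈ F, (Ψ (f ⊔ v) - Ψ f)
  have hTh : ∀ F, ContCap (Th F) := fun F =>
    h.add (ContCap.sum F fun f _ => h.shift hB f)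
  have hTh1 : ∀ F v, Ψ v ≤ Th F v := by
    intro F v
    have : 0 ≤ ∑ f ∈ F, (Ψ (f ⊔ v) - Ψ f) :=
      Finset.sum_nonneg fun f _ => (h.shift hB f).nonneg v
    show Ψ v ≤ Ψ v + _
    linarith
  have hTh2 : ∀ (F : Finset B) (f : B), f ∈ F → ∀ v, Ψ (f ⊔ v) - Ψ f ≤ Th F v := by
    intro F f hf v
    have h1 : Ψ (f ⊔ v) - Ψ f ≤ ∑ f ∈ F, (Ψ (f ⊔ v) - Ψ f) :=
      Finset.single_le_sum (f := fun f => Ψ (f ⊔ v) - Ψ f)
        (fun f _ => (h.shift hB f).nonneg v) hf
    have h2 := h.nonneg v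
    show Ψ (f ⊔ v) - Ψ f ≤ Ψ v + _
    linarith
  by_contra hcon
  have hneg : ∀ (F : Finset B) (η : ℝ), 0 < η → ∃ x y, Th F x < η ∧ Th F y < η ∧ ε ≤ Ψ (x ⊔ y) := by
    intro F η hη
    by_contra hc
    apply hcon
    refine ⟨Th F, hTh F, hTh1 F, η, hη, fun x y hx hy => ?_⟩
    by_contra hxy
    exact hc ⟨x, y, hx, hy, not_lt.1 hxy⟩
  let et : ℕ → ℝ := fun n => ε / 2 ^ (n + 2)
  have het : ∀ n, 0 < et n := fun n => by positivity
  choose X Y hX hY hXY using fun (F : Finset B) (n : ℕ) => hneg F (et n) (het n)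
  let Fs : ℕ → Finset B := fun n => Nat.rec {⊥} (fun n F =>
    F ∪ F.image (fun f => f ⊔ X F n) ∪ F.image (fun f => f ⊔ Y F n)) n
  have hFs : ∀ n, Fs (n + 1) = Fs n ∪ (Fs n).image (fun f => f ⊔ X (Fs n) n) ∪
      (Fs n).image (fun f => f ⊔ Y (Fs n) n) := fun n => rfl
  have hF0 : ∀ n, (⊥ : B) ∈ Fs n := by
    intro n
    induction n with
    | zero => exact Finset.mem_singleton_self _
    | succ n ih =>
      rw [hFs]
      exact Finset.mem_union_left _ (Finset.mem_union_left _ ih)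
  have hFX : ∀ n f, f ∈ Fs n → f ⊔ X (Fs n) n ∈ Fs (n + 1) := by
    intro n f hf
    rw [hFs]
    exact Finset.mem_union_left _ (Finset.mem_union_right _ (Finset.mem_image_of_mem _ hf))
  have hFY : ∀ n f, f ∈ Fs n → f ⊔ Y (Fs n) n ∈ Fs (n + 1) := by
    intro n f hf
    rw [hFs]
    exact Finset.mem_union_right _ (Finset.mem_image_of_mem _ hf)
  let x : ℕ → B := fun n => X (Fs n) n
  let y : ℕ → B := fun n => Y (Fs n) n
  -- partial joins of the x's
  let b : ℕ → B := fun n => Nat.rec ⊥ (fun n c => c ⊔ x n) n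
  have hb : ∀ n, b (n + 1) = b n ⊔ x n := fun n => rfl
  have hbF : ∀ n, b n ∈ Fs n := by
    intro n
    induction n with
    | zero => exact hF0 0
    | succ n ih =>
      rw [hb]
      exact hFX n _ ih
  have hetsum : ∀ n, et n + 2 * et (n + 1) ≤ 2 * et n := by
    intro n
    show ε / 2 ^ (n + 2) + 2 * (ε / 2 ^ (n + 1 + 2)) ≤ 2 * (ε / 2 ^ (n + 2))
    have : 2 * (ε / 2 ^ (n + 1 + 2)) = ε / 2 ^ (n + 2) := by
      have e : (2 : ℝ) ^ (n + 1 + 2) = 2 ^ (n + 2) * 2 := by ring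
      rw [e]
      field_simp
    linarith
  have hbb : ∀ n, Ψ (b n) + 2 * et n ≤ 2 * et 0 := by
    intro n
    induction n with
    | zero =>
      have : Ψ (b 0) = 0 := h.bot
      linarith
    | succ n ih =>
      have h1 := hTh2 (Fs n) (b n) (hbF n) (x n)
      have h2 : Th (Fs n) (x n) < et n := hX (Fs n) n
      have h3 := hetsum n
      rw [hb]
      linarith
  have hbmono : Monotone b := monotone_nat_of_le_succ fun n => by
    rw [hb]
    exact le_sup_left
  obtain ⟨bi, hbi⟩ := hB.lub b hbmono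
  have hbi2 : Ψ bi ≤ 2 * et 0 := by
    refine le_of_tendsto (h.up b bi hbmono hbi) (Eventually.of_forall fun n => ?_)
    have h1 := hbb n
    have h2 := het n
    linarith
  have hxbi : ∀ n, x n ≤ bi := by
    intro n
    have h1 : x n ≤ b (n + 1) := by
      rw [hb]
      exact le_sup_right
    exact h1.trans (hbi.1 ⟨n + 1, rfl⟩)
  -- partial joins of the y's
  let c : ℕ → ℕ → B := fun k m => Nat.rec ⊥ (fun m e => e ⊔ y (k + m)) m
  have hc : ∀ k m, c k (m + 1) = c k m ⊔ y (k + m) := fun k m => rfl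
  have hcF : ∀ k m, c k m ∈ Fs (k + m) := by
    intro k m
    induction m with
    | zero => exact hF0 k
    | succ m ih =>
      rw [hc]
      exact hFY (k + m) _ ih
  have hcc : ∀ k m, Ψ (c k m) + 2 * et (k + m) ≤ 2 * et k := by
    intro k m
    induction m with
    | zero =>
      have : Ψ (c k 0) = 0 := h.bot
      rw [add_zero]
      linarith
    | succ m ih =>
      have h1 := hTh2 (Fs (k + m)) (c k m) (hcF k m) (y (k + m))
      have h2 : Th (Fs (k + m)) (y (k + m)) < et (k + m) := hY (Fs (k + m)) (k + m)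
      have h3 := hetsum (k + m)
      rw [hc, ← add_assoc]
      linarith
  have hcmono : ∀ k, Monotone (c k) := fun k => monotone_nat_of_le_succ fun m => by
    rw [hc]
    exact le_sup_left
  choose z hz using fun k => hB.lub (c k) (hcmono k)
  have hz2 : ∀ k, Ψ (z k) ≤ 2 * et k := by
    intro k
    refine le_of_tendsto (h.up (c k) (z k) (hcmono k) (hz k)) (Eventually.of_forall fun m => ?_)
    have h1 := hcc k m
    have h2 := het (k + m)
    linarith
  have hyz : ∀ k m, y (k + m) ≤ z k := by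
    intro k m
    have h1 : y (k + m) ≤ c k (m + 1) := by
      rw [hc]
      exact le_sup_right
    exact h1.trans ((hz k).1 ⟨m + 1, rfl⟩)
  have hzanti : Antitone z := antitone_nat_of_succ_le fun k => by
    apply (hz (k + 1)).2
    rintro _ ⟨m, rfl⟩
    induction m with
    | zero => exact bot_le
    | succ m ih =>
      rw [hc]
      refine sup_le ih ?_
      have h1 := hyz k (m + 1)
      have h2 : k + (m + 1) = k + 1 + m := by ring
      rwa [h2] at h1
  obtain ⟨g, hg⟩ := hB.glb z hzanti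
  have hg0 : g = ⊥ := by
    apply hpos
    apply le_antisymm _ (h.nonneg g)
    have hlim : Tendsto (fun k => 2 * et k) atTop (𝓝 0) := by
      have h1 : Tendsto (fun k : ℕ => ε / 2 * (1 / 2 : ℝ) ^ k) atTop (𝓝 0) := by
        have := (tendsto_pow_atTop_nhds_zero_of_lt_one (r := (1 : ℝ) / 2) (by norm_num)
          (by norm_num)).const_mul (ε / 2)
        simpa using this
      refine h1.congr (fun k => ?_)
      show ε / 2 * (1 / 2 : ℝ) ^ k = 2 * (ε / 2 ^ (k + 2))
      rw [pow_add, one_div, inv_pow]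
      field_simp
    refine ge_of_tendsto hlim (Eventually.of_forall fun k => ?_)
    exact (h.mono (hg.1 ⟨k, rfl⟩)).trans (hz2 k)
  have hfin := h.down (fun k => bi ⊔ z k) (bi ⊔ g)
    (fun m n hmn => sup_le_sup_left (hzanti hmn) bi) (hB.cod z g bi hzanti hg)
  rw [hg0, sup_bot_eq] at hfin
  have h1 : ε ≤ Ψ bi := by
    refine ge_of_tendsto hfin (Eventually.of_forall fun k => ?_)
    have h2 : ε ≤ Ψ (x k ⊔ y k) := hXY (Fs k) k
    refine h2.trans (h.mono (sup_le_sup (hxbi k) ?_))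
    exact hyz k 0
  have h2 : 2 * et 0 = ε / 2 := by
    show 2 * (ε / 2 ^ (0 + 2)) = ε / 2
    norm_num
    ring
  linarith


/-- A list inequality: a function that is quasi-subadditive for triples is, up to a factor `2`,
subadditive for lists. -/
lemma list_ineq {h : B → ℝ} (h0 : ∀ a, 0 ≤ h a) (hbot : h ⊥ = 0)
    (h3 : ∀ a b c, h (a ⊔ b ⊔ c) ≤ 2 * max (h a) (max (h b) (h c))) :
    ∀ (n : ℕ) (l : List B), l.length ≤ n → h (l.foldr (· ⊔ ·) ⊥) ≤ 2 * (l.map h).sum := by
  intro n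
  induction n with
  | zero =>
    intro l hl
    have : l = [] := List.length_eq_zero_iff.1 (Nat.le_zero.1 hl)
    subst this
    simp [hbot]
  | succ n ih =>
    intro l hl
    -- find the split point
    set S := (l.map h).sum with hS
    have hnonneg : ∀ l : List B, 0 ≤ (l.map h).sum := by
      intro l
      apply List.sum_nonneg
      intro x hx
      obtain ⟨a, _, rfl⟩ := List.mem_map.1 hx
      exact h0 a
    have hsplit : ∀ (k : ℕ), k ≤ l.length → 2 * ((l.take k).map h).sum ≤ S ∨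
        ∃ (l₁ : List B) (a : B) (l₂ : List B), l = l₁ ++ a :: l₂ ∧
          2 * (l₁.map h).sum ≤ S ∧ 2 * (l₂.map h).sum ≤ S := by
      intro k
      induction k with
      | zero =>
        intro _
        left
        simp only [List.take_zero, List.map_nil, List.sum_nil, mul_zero]
        exact hnonneg l
      | succ k ihk =>
        intro hk
        rcases ihk (by omega) with h1 | h1
        · by_cases h2 : 2 * ((l.take (k + 1)).map h).sum ≤ S
          · exact Or.inl h2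
          · right
            have hk' : k < l.length := by omega
            have e1 : l = l.take k ++ l[k] :: l.drop (k + 1) := by
              rw [List.getElem_cons_drop, List.take_append_drop]
            refine ⟨l.take k, l[k], l.drop (k + 1), e1, h1, ?_⟩
            have e2 : S = ((l.take (k + 1)).map h).sum + ((l.drop (k + 1)).map h).sum := by
              rw [hS, ← List.sum_append, ← List.map_append, List.take_append_drop]
            linarith [not_le.1 h2]
        · exact Or.inr h1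
    rcases hsplit l.length le_rfl with h1 | ⟨l₁, a, l₂, he, h1, h2⟩
    · -- then the total is zero
      rw [List.take_length] at h1
      have hS0 : S = 0 := le_antisymm (by linarith) (hnonneg l)
      cases l with
      | nil => simp [hbot, hS0]
      | cons a l =>
        have e : S = h a + (l.map h).sum := by rw [hS, List.map_cons, List.sum_cons]
        have ha := h0 a
        have hl0 := hnonneg l
        have hl1 : l.length ≤ n := by simpa using hl
        have h4 := ih l hl1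
        have h5 := h3 a (l.foldr (· ⊔ ·) ⊥) ⊥
        rw [sup_bot_eq] at h5
        have h6 : max (h a) (max (h (l.foldr (· ⊔ ·) ⊥)) (h ⊥)) ≤ 0 := by
          refine max_le (by linarith) (max_le (by linarith) hbot.le)
        rw [List.foldr_cons]
        linarith
    · subst he
      have hl1 : l₁.length ≤ n := by
        simp only [List.length_append, List.length_cons] at hl
        omega
      have hl2 : l₂.length ≤ n := by
        simp only [List.length_append, List.length_cons] at hl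
        omega
      have h4 := ih l₁ hl1
      have h5 := ih l₂ hl2
      have e1 : (l₁ ++ a :: l₂).foldr (· ⊔ ·) ⊥ =
          l₁.foldr (· ⊔ ·) ⊥ ⊔ a ⊔ l₂.foldr (· ⊔ ·) ⊥ := by
        clear hsplit hS h1 h2 hl hl1 hl2 h4 h5 ih
        induction l₁ with
        | nil => simp
        | cons b l ihl => 
          rw [List.cons_append, List.foldr_cons, ihl, List.foldr_cons]
          simp only [sup_assoc]
      have e2 : S = (l₁.map h).sum + (h a + (l₂.map h).sum) := by
        rw [hS, List.map_append, List.sum_append, List.map_cons, List.sum_cons]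
      have ha := h0 a
      have hn1 := hnonneg l₁
      have hn2 := hnonneg l₂
      rw [e1]
      refine (h3 _ _ _).trans ?_
      have : max (h (l₁.foldr (· ⊔ ·) ⊥)) (max (h a) (h (l₂.foldr (· ⊔ ·) ⊥))) ≤ S := by
        refine max_le ?_ (max_le ?_ ?_)
        · linarith
        · linarith
        · linarith
      linarith


/-- Existence of the sequence of neighbourhoods. -/
lemma exists_seq (hB : SigmaLat B) {φ : B → ℝ} (hφ : ContCap φ) (hpos : ∀ a, φ a = 0 → a = ⊥)
    {C : ℝ} (hC : ∀ a, φ a < C) :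
    ∃ (Θ : ℕ → B → ℝ) (e : ℕ → ℝ), (∀ n, ContCap (Θ n)) ∧ (∀ n a, φ a ≤ Θ n a) ∧
      (∀ n, 0 < e n) ∧ (∀ n, e n ≤ e 0 * (1 / 2) ^ n) ∧ (∀ a, Θ 0 a < e 0) ∧
      ∀ n x y z, Θ (n + 1) x < e (n + 1) → Θ (n + 1) y < e (n + 1) → Θ (n + 1) z < e (n + 1) →
        Θ n (x ⊔ y ⊔ z) < e n := by
  let State := {p : (B → ℝ) × ℝ // ContCap p.1 ∧ (∀ a, φ a ≤ p.1 a) ∧ 0 < p.2}
  have step : ∀ s : State, ∃ s' : State, s'.1.2 ≤ s.1.2 / 2 ∧
      ∀ x y z, s'.1.1 x < s'.1.2 → s'.1.1 y < s'.1.2 → s'.1.1 z < s'.1.2 →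
        s.1.1 (x ⊔ y ⊔ z) < s.1.2 := by
    rintro ⟨⟨Ψ, ε⟩, h1, h2, h3⟩
    have hpos1 : ∀ a, Ψ a = 0 → a = ⊥ := fun a ha => by
      apply hpos
      apply le_antisymm _ (hφ.nonneg a)
      rw [← ha]
      exact h2 a
    obtain ⟨Θ, hΘ, hΘΨ, η, hη, hkey⟩ := key hB h1 hpos1 h3
    have hpos2 : ∀ a, Θ a = 0 → a = ⊥ := fun a ha => by
      apply hpos1
      apply le_antisymm _ (h1.nonneg a)
      rw [← ha]
      exact hΘΨ a
    obtain ⟨Θ', hΘ', hΘΘ, η', hη', hkey'⟩ := key hB hΘ hpos2 hη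
    refine ⟨⟨(Θ', min η' (ε / 2)), hΘ', fun a => (h2 a).trans ((hΘΨ a).trans (hΘΘ a)),
      lt_min hη' (half_pos h3)⟩, min_le_right _ _, ?_⟩
    intro x y z hx hy hz
    have hx' : Θ' x < η' := lt_of_lt_of_le hx (min_le_left _ _)
    have hy' : Θ' y < η' := lt_of_lt_of_le hy (min_le_left _ _)
    have hz' : Θ' z < η' := lt_of_lt_of_le hz (min_le_left _ _)
    have h4 := hkey' x y hx' hy'
    have h5 := hkey' z z hz' hz'
    rw [sup_idem] at h5
    exact hkey _ _ h4 h5
  choose nx hnx1 hnx2 using step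
  have hC0 : 0 < C := by
    have := hC ⊥
    rwa [hφ.bot] at this
  let s0 : State := ⟨(φ, C), hφ, fun a => le_rfl, hC0⟩
  let seq : ℕ → State := fun n => Nat.rec s0 (fun _ s => nx s) n
  have hseq : ∀ n, seq (n + 1) = nx (seq n) := fun n => rfl
  refine ⟨fun n => (seq n).1.1, fun n => (seq n).1.2, fun n => (seq n).2.1,
    fun n a => (seq n).2.2.1 a, fun n => (seq n).2.2.2, ?_, hC, ?_⟩
  · intro n
    induction n with
    | zero => simp
    | succ n ih =>
      have h1 : (seq (n + 1)).1.2 ≤ (seq n).1.2 / 2 := by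
        rw [hseq]
        exact hnx1 (seq n)
      show (seq (n + 1)).1.2 ≤ (seq 0).1.2 * (1 / 2) ^ (n + 1)
      have h2 : (seq 0).1.2 * (1 / 2 : ℝ) ^ (n + 1) = (seq 0).1.2 * (1 / 2) ^ n / 2 := by ring
      rw [h2]
      have ih' : (seq n).1.2 ≤ (seq 0).1.2 * (1 / 2) ^ n := ih
      linarith
  · intro n x y z
    show (seq (n + 1)).1.1 x < (seq (n + 1)).1.2 → (seq (n + 1)).1.1 y < (seq (n + 1)).1.2 →
      (seq (n + 1)).1.1 z < (seq (n + 1)).1.2 → (seq n).1.1 (x ⊔ y ⊔ z) < (seq n).1.2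
    rw [hseq]
    exact hnx2 (seq n) x y z

/-- **Abstract theorem.** A lattice as in `SigmaLat` with a strictly positive bounded continuous
capacity carries a strictly positive continuous submeasure. -/
theorem exists_submeasure (hB : SigmaLat B) {φ : B → ℝ} (hφ : ContCap φ)
    (hpos : ∀ a, φ a = 0 → a = ⊥) {C : ℝ} (hC : ∀ a, φ a < C) :
    ∃ ν : B → ℝ, (∀ a, 0 ≤ ν a) ∧ (∀ a, ν a = 0 ↔ a = ⊥) ∧ Monotone ν ∧
      (∀ a b, ν (a ⊔ b) ≤ ν a + ν b) ∧
      ∀ a : ℕ → B, Antitone a → IsGLB (range a) ⊥ → Tendsto (fun n => ν (a n)) atTop (𝓝 0) := by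
  classical
  obtain ⟨Θ, e, hΘ, hφΘ, he, hegeo, hall, hstep⟩ := exists_seq hB hφ hpos hC
  let V : ℕ → Set B := fun n => {a | Θ n a < e n}
  have hV3 : ∀ n x y z, x ∈ V (n + 1) → y ∈ V (n + 1) → z ∈ V (n + 1) → x ⊔ y ⊔ z ∈ V n := hstep
  have hVsucc : ∀ n x, x ∈ V (n + 1) → x ∈ V n := by
    intro n x hx
    have := hV3 n x x x hx hx hx
    rwa [sup_idem, sup_idem] at this
  have hVanti : ∀ m n, m ≤ n → ∀ x, x ∈ V n → x ∈ V m := by
    intro m n hmn
    induction n, hmn using Nat.le_induction with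
    | base => exact fun x hx => hx
    | succ n _ ih => exact fun x hx => ih x (hVsucc n x hx)
  have hVdown : ∀ n x y, x ≤ y → y ∈ V n → x ∈ V n := fun n x y hxy hy =>
    lt_of_le_of_lt ((hΘ n).mono hxy) hy
  have hVbot : ∀ n, (⊥ : B) ∈ V n := fun n => by
    show Θ n ⊥ < e n
    rw [(hΘ n).bot]
    exact he n
  have hVinter : ∀ a, (∀ n, a ∈ V n) → a = ⊥ := by
    intro a ha
    apply hpos
    apply le_antisymm _ (hφ.nonneg a)
    have hlim : Tendsto (fun n : ℕ => e 0 * (1 / 2 : ℝ) ^ n) atTop (𝓝 0) := by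
      have := (tendsto_pow_atTop_nhds_zero_of_lt_one (r := (1 : ℝ) / 2) (by norm_num)
        (by norm_num)).const_mul (e 0)
      simpa using this
    refine ge_of_tendsto hlim (Eventually.of_forall fun n => ?_)
    have h1 : Θ n a < e n := ha n
    linarith [hφΘ n a, hegeo n]
  -- the function h
  let h : B → ℝ := fun a => if ha : ∃ n, a ∉ V n then (1 / 2 : ℝ) ^ (Nat.find ha) else 0
  have hh0 : ∀ a, 0 ≤ h a := by
    intro a
    show 0 ≤ if ha : ∃ n, a ∉ V n then (1 / 2 : ℝ) ^ (Nat.find ha) else 0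
    split_ifs
    · positivity
    · exact le_rfl
  have hhV : ∀ a n, a ∈ V n → h a ≤ (1 / 2) ^ (n + 1) := by
    intro a n han
    show (if ha : ∃ n, a ∉ V n then (1 / 2 : ℝ) ^ (Nat.find ha) else 0) ≤ _
    split_ifs with ha
    · apply pow_le_pow_of_le_one (by norm_num) (by norm_num)
      by_contra hlt
      have h1 : Nat.find ha ≤ n := by omega
      exact Nat.find_spec ha (hVanti _ _ h1 a han)
    · positivity
  have hhV2 : ∀ a n, a ∉ V n → (1 / 2) ^ n ≤ h a := by
    intro a n han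
    have ha : ∃ n, a ∉ V n := ⟨n, han⟩
    show _ ≤ if ha : ∃ n, a ∉ V n then (1 / 2 : ℝ) ^ (Nat.find ha) else 0
    rw [dif_pos ha]
    exact pow_le_pow_of_le_one (by norm_num) (by norm_num) (Nat.find_min' ha han)
  have hhbot : h ⊥ = 0 := by
    show (if ha : ∃ n, (⊥ : B) ∉ V n then (1 / 2 : ℝ) ^ (Nat.find ha) else 0) = 0
    rw [dif_neg]
    rintro ⟨n, hn⟩
    exact hn (hVbot n)
  have hhzero : ∀ a, h a = 0 → a = ⊥ := by
    intro a ha
    apply hVinter
    intro n
    by_contra hn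
    have h1 := hhV2 a n hn
    rw [ha] at h1
    have : (0 : ℝ) < (1 / 2) ^ n := by positivity
    linarith
  have hhmono : Monotone h := by
    intro a b hab
    by_cases ha : ∃ n, a ∉ V n
    · have h1 : h a = (1 / 2 : ℝ) ^ (Nat.find ha) := dif_pos ha
      rw [h1]
      apply hhV2
      intro hb
      exact Nat.find_spec ha (hVdown _ _ _ hab hb)
    · have h1 : h a = 0 := dif_neg ha
      rw [h1]
      exact hh0 b
  have hh3 : ∀ a b c, h (a ⊔ b ⊔ c) ≤ 2 * max (h a) (max (h b) (h c)) := by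
    intro a b c
    by_cases hd : ∃ n, a ⊔ b ⊔ c ∉ V n
    · have h1 : h (a ⊔ b ⊔ c) = (1 / 2 : ℝ) ^ (Nat.find hd) := dif_pos hd
      rw [h1]
      set n := Nat.find hd with hn
      have hnot : a ⊔ b ⊔ c ∉ V n := Nat.find_spec hd
      have h2 : a ∉ V (n + 1) ∨ b ∉ V (n + 1) ∨ c ∉ V (n + 1) := by
        by_contra hc
        simp only [not_or, not_not] at hc
        exact hnot (hV3 n a b c hc.1 hc.2.1 hc.2.2)
      have h3 : (1 / 2 : ℝ) ^ (n + 1) ≤ max (h a) (max (h b) (h c)) := by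
        rcases h2 with h2 | h2 | h2
        · exact (hhV2 a _ h2).trans (le_max_left _ _)
        · exact (hhV2 b _ h2).trans ((le_max_left _ _).trans (le_max_right _ _))
        · exact (hhV2 c _ h2).trans ((le_max_right _ _).trans (le_max_right _ _))
      have h4 : (1 / 2 : ℝ) ^ n = 2 * (1 / 2) ^ (n + 1) := by ring
      rw [h4]
      linarith
    · have h1 : h (a ⊔ b ⊔ c) = 0 := dif_neg hd
      rw [h1]
      have : 0 ≤ max (h a) (max (h b) (h c)) := (hh0 a).trans (le_max_left _ _)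
      linarith
  have hlist := fun l : List B => list_ineq hh0 hhbot hh3 l.length l le_rfl
  -- the submeasure
  let S : B → Set ℝ := fun a => {s | ∃ l : List B, a ≤ l.foldr (· ⊔ ·) ⊥ ∧ s = (l.map h).sum}
  have hSne : ∀ a, (S a).Nonempty := fun a => ⟨_, [a], by simp, rfl⟩
  have hSlow : ∀ a, ∀ s ∈ S a, h a / 2 ≤ s := by
    rintro a s ⟨l, hl, rfl⟩
    have h1 := hhmono hl
    have h2 := hlist l
    linarith
  have hSbdd : ∀ a, BddBelow (S a) := fun a => ⟨h a / 2, fun s hs => hSlow a s hs⟩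
  have hlow : ∀ a, h a / 2 ≤ sInf (S a) := fun a => le_csInf (hSne a) (hSlow a)
  have hupp : ∀ a, sInf (S a) ≤ h a := fun a =>
    csInf_le (hSbdd a) ⟨[a], by simp, by simp⟩
  refine ⟨fun a => sInf (S a), ?_, ?_, ?_, ?_, ?_⟩
  · intro a
    have := hlow a
    have := hh0 a
    show 0 ≤ sInf (S a)
    linarith
  · intro a
    show sInf (S a) = 0 ↔ a = ⊥
    constructor
    · intro ha
      apply hhzero
      have h1 := hlow a
      have h2 := hh0 a
      linarith
    · rintro rfl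
      apply le_antisymm
      · rw [← hhbot]
        exact hupp ⊥
      · have := hlow ⊥
        rw [hhbot] at this
        linarith
  · intro a b hab
    show sInf (S a) ≤ sInf (S b)
    apply csInf_le_csInf (hSbdd a) (hSne b)
    rintro s ⟨l, hl, rfl⟩
    exact ⟨l, hab.trans hl, rfl⟩
  · intro a b
    show sInf (S (a ⊔ b)) ≤ sInf (S a) + sInf (S b)
    apply le_of_forall_pos_le_add
    intro ε hε
    obtain ⟨_, ⟨l, hl, rfl⟩, hls⟩ := exists_lt_of_csInf_lt (hSne a)
      (show sInf (S a) < sInf (S a) + ε / 2 by linarith)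
    obtain ⟨_, ⟨l', hl', rfl⟩, hls'⟩ := exists_lt_of_csInf_lt (hSne b)
      (show sInf (S b) < sInf (S b) + ε / 2 by linarith)
    have e1 : ∀ l l' : List B, (l ++ l').foldr (· ⊔ ·) ⊥ =
        l.foldr (· ⊔ ·) ⊥ ⊔ l'.foldr (· ⊔ ·) ⊥ := by
      intro l l'
      induction l with
      | nil => simp
      | cons b l ihl =>
        rw [List.cons_append, List.foldr_cons, ihl, List.foldr_cons]
        simp only [sup_assoc]
    have h1 : sInf (S (a ⊔ b)) ≤ ((l ++ l').map h).sum := by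
      apply csInf_le (hSbdd _)
      refine ⟨l ++ l', ?_, rfl⟩
      rw [e1]
      exact sup_le_sup hl hl'
    rw [List.map_append, List.sum_append] at h1
    linarith
  · intro a ha hglb
    rw [Metric.tendsto_atTop]
    intro ε hε
    obtain ⟨n, hn⟩ : ∃ n : ℕ, (1 / 2 : ℝ) ^ n < ε := exists_pow_lt_of_lt_one hε (by norm_num)
    have h1 := (hΘ n).down a ⊥ ha hglb
    rw [(hΘ n).bot] at h1
    have h2 := h1.eventually_lt_const (he n)
    obtain ⟨N, hN⟩ := h2.exists_forall_of_atTop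
    refine ⟨N, fun k hk => ?_⟩
    have h3 : a k ∈ V n := hN k hk
    have h4 := hhV (a k) n h3
    have h5 := hupp (a k)
    have h6 := hlow (a k)
    have h7 := hh0 (a k)
    rw [Real.dist_eq, sub_zero]
    show |sInf (S (a k))| < ε
    rw [abs_of_nonneg (by linarith)]
    have h8 : (1 / 2 : ℝ) ^ (n + 1) ≤ (1 / 2) ^ n :=
      pow_le_pow_of_le_one (by norm_num) (by norm_num) (by omega)
    linarith

end abs


/-! ### Capacities of subspaces -/

section cap

variable {H : Type*} [NormedAddCommGroup H] [InnerProductSpace ℂ H] [CompleteSpace H]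

/-- `‖P_M x‖²` where `P_M` is the projection onto the closure of `M`. -/
noncomputable def cp (x : H) (M : Submodule ℂ H) : ℝ := ‖(Mᗮᗮ).starProjection x‖ ^ 2

lemma cp_nonneg (x : H) (M : Submodule ℂ H) : 0 ≤ cp x M := by unfold cp; positivity

lemma cp_le (x : H) (M : Submodule ℂ H) : cp x M ≤ ‖x‖ ^ 2 := by
  unfold cp
  have := Submodule.norm_starProjection_apply_le (Mᗮᗮ) x
  gcongr


lemma cp_eq_zero_iff (x : H) (M : Submodule ℂ H) : cp x M = 0 ↔ x ∈ Mᗮ := by
  unfold cp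
  rw [sq_eq_zero_iff, norm_eq_zero, Submodule.starProjection_apply_eq_zero_iff,
    Submodule.triorthogonal_eq_orthogonal]

lemma cp_mono (x : H) {M N : Submodule ℂ H} (h : M ≤ N) : cp x M ≤ cp x N := by
  unfold cp
  have h1 : Mᗮᗮ ≤ Nᗮᗮ := Submodule.orthogonal_le (Submodule.orthogonal_le h)
  have h2 : (Mᗮᗮ).starProjection x = (Mᗮᗮ).starProjection ((Nᗮᗮ).starProjection x) := by
    rw [← ContinuousLinearMap.comp_apply, Submodule.starProjection_comp_starProjection_of_le h1]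
  rw [h2]
  have := Submodule.norm_starProjection_apply_le (Mᗮᗮ) ((Nᗮᗮ).starProjection x)
  gcongr

lemma starProjection_congr {K L : Submodule ℂ H} [K.HasOrthogonalProjection]
    [L.HasOrthogonalProjection] (h : K = L) : K.starProjection = L.starProjection := by
  subst h
  rfl

lemma tend_up (M : ℕ → Submodule ℂ H) (hM : Monotone M) (x : H) :
    Tendsto (fun n => ((M n)ᗮᗮ).starProjection x) atTop
      (𝓝 (((⨆ n, M n)ᗮᗮ).starProjection x)) := by
  have hmono : Monotone (fun n => (M n)ᗮᗮ) := fun m n hmn =>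
    Submodule.orthogonal_le (Submodule.orthogonal_le (hM hmn))
  have h := Submodule.starProjection_tendsto_closure_iSup (fun n => (M n)ᗮᗮ) hmono x
  have e : (⨆ n, (M n)ᗮᗮ).topologicalClosure = (⨆ n, M n)ᗮᗮ := by
    rw [← Submodule.orthogonal_orthogonal_eq_closure]
    congr 1
    rw [← Submodule.iInf_orthogonal, ← Submodule.iInf_orthogonal]
    simp only [Submodule.triorthogonal_eq_orthogonal]
  rw [starProjection_congr e] at h
  exact h

lemma tend_down (M : ℕ → Submodule ℂ H) (hM : Antitone M) (hcl : ∀ n, IsClosed (M n : Set H))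
    (x : H) :
    Tendsto (fun n => ((M n)ᗮᗮ).starProjection x) atTop
      (𝓝 (((⨅ n, M n)ᗮᗮ).starProjection x)) := by
  have hmono : Monotone (fun n => (M n)ᗮ) := fun m n hmn => Submodule.orthogonal_le (hM hmn)
  have h := tend_up _ hmono x
  have h2 := h.const_sub x
  have e1 : ∀ K : Submodule ℂ H, x - (Kᗮᗮ).starProjection x = (Kᗮ).starProjection x := by
    intro K
    rw [← Submodule.starProjection_orthogonal_val, 
      starProjection_congr (Submodule.triorthogonal_eq_orthogonal (K := K))]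
  have e2 : (⨆ n, (M n)ᗮ)ᗮ = (⨅ n, M n)ᗮᗮ := by
    have hc : IsClosed ((⨅ n, M n : Submodule ℂ H) : Set H) := by
      rw [Submodule.coe_iInf]
      exact isClosed_iInter hcl
    rw [← Submodule.iInf_orthogonal, oo_eq hc]
    exact iInf_congr fun n => oo_eq (hcl n)
  rw [e1, starProjection_congr e2] at h2
  refine h2.congr (fun n => ?_)
  rw [e1]

lemma cp_tend_up (M : ℕ → Submodule ℂ H) (hM : Monotone M) (x : H) :
    Tendsto (fun n => cp x (M n)) atTop (𝓝 (cp x (⨆ n, M n))) :=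
  ((tend_up M hM x).norm).pow 2

lemma cp_closure (x : H) (M : Submodule ℂ H) : cp x M.topologicalClosure = cp x M := by
  unfold cp
  rw [starProjection_congr (show M.topologicalClosureᗮᗮ = Mᗮᗮ by rw [Submodule.orthogonal_closure])]

lemma cp_tend_down (M : ℕ → Submodule ℂ H) (hM : Antitone M)
    (hcl : ∀ n, IsClosed (M n : Set H)) (x : H) :
    Tendsto (fun n => cp x (M n)) atTop (𝓝 (cp x (⨅ n, M n))) :=
  ((tend_down M hM hcl x).norm).pow 2

/-- weighted sum of the capacities of a sequence of vectors -/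
noncomputable def scp (x : ℕ → H) (M : Submodule ℂ H) : ℝ :=
  ∑' n : ℕ, (1 / 2) ^ n * (cp (x n) M / (1 + ‖x n‖ ^ 2))

lemma scp_term_le (x : ℕ → H) (M : Submodule ℂ H) (n : ℕ) :
    (1 / 2 : ℝ) ^ n * (cp (x n) M / (1 + ‖x n‖ ^ 2)) ≤ (1 / 2) ^ n := by
  have h1 : cp (x n) M / (1 + ‖x n‖ ^ 2) ≤ 1 := by
    rw [div_le_one (by positivity)]
    have := cp_le (x n) M
    linarith
  have h2 : (0 : ℝ) ≤ (1 / 2) ^ n := by positivity
  nlinarith

lemma scp_term_nonneg (x : ℕ → H) (M : Submodule ℂ H) (n : ℕ) :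
    0 ≤ (1 / 2 : ℝ) ^ n * (cp (x n) M / (1 + ‖x n‖ ^ 2)) := by
  have := cp_nonneg (x n) M
  positivity

lemma scp_summable (x : ℕ → H) (M : Submodule ℂ H) :
    Summable fun n : ℕ => (1 / 2 : ℝ) ^ n * (cp (x n) M / (1 + ‖x n‖ ^ 2)) :=
  Summable.of_nonneg_of_le (scp_term_nonneg x M) (scp_term_le x M) summable_geometric_two

lemma scp_lt (x : ℕ → H) (M : Submodule ℂ H) : scp x M < 3 := by
  have h1 : scp x M ≤ ∑' n : ℕ, (1 / 2 : ℝ) ^ n :=
    Summable.tsum_le_tsum (scp_term_le x M) (scp_summable x M) summable_geometric_two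
  rw [tsum_geometric_two] at h1
  linarith

lemma scp_mono (x : ℕ → H) {M N : Submodule ℂ H} (h : M ≤ N) : scp x M ≤ scp x N := by
  refine Summable.tsum_le_tsum (fun n => ?_) (scp_summable x M) (scp_summable x N)
  have := cp_mono (x n) h
  gcongr

lemma scp_eq_zero {x : ℕ → H} {M : Submodule ℂ H} (h : scp x M = 0) (n : ℕ) : x n ∈ Mᗮ := by
  have h1 : (1 / 2 : ℝ) ^ n * (cp (x n) M / (1 + ‖x n‖ ^ 2)) ≤ scp x M :=
    (scp_summable x M).le_tsum n fun m _ => scp_term_nonneg x M m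
  rw [h] at h1
  have h2 := scp_term_nonneg x M n
  have h3 : (1 / 2 : ℝ) ^ n * (cp (x n) M / (1 + ‖x n‖ ^ 2)) = 0 := le_antisymm h1 h2
  have h4 : (0 : ℝ) < (1 / 2) ^ n := by positivity
  have h5 : (0 : ℝ) < 1 + ‖x n‖ ^ 2 := by positivity
  rw [mul_eq_zero, div_eq_zero_iff] at h3
  rcases h3 with h3 | h3 | h3
  · linarith
  · exact (cp_eq_zero_iff _ _).1 h3
  · linarith

lemma scp_bot (x : ℕ → H) : scp x ⊥ = 0 := by
  unfold scp
  have : ∀ n, cp (x n) (⊥ : Submodule ℂ H) = 0 := fun n => by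
    rw [cp_eq_zero_iff, Submodule.bot_orthogonal_eq_top]
    trivial
  simp [this]

lemma scp_tendsto (x : ℕ → H) (M : ℕ → Submodule ℂ H) (L : Submodule ℂ H)
    (h : ∀ y, Tendsto (fun n => cp y (M n)) atTop (𝓝 (cp y L))) :
    Tendsto (fun n => scp x (M n)) atTop (𝓝 (scp x L)) := by
  refine tendsto_tsum_of_dominated_convergence (bound := fun n : ℕ => (1 / 2 : ℝ) ^ n)
    summable_geometric_two (fun k => ?_) (Eventually.of_forall fun n k => ?_)
  · exact ((h (x k)).div_const _).const_mul _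
  · rw [Real.norm_of_nonneg (scp_term_nonneg x (M n) k)]
    exact scp_term_le x (M n) k

end cap


/-! ### Application to representations -/

section appl

variable {H : Type*} [NormedAddCommGroup H] [InnerProductSpace ℂ H]

lemma Rep.bot {B : Type*} [BooleanAlgebra B] {e : B → Submodule ℂ H} (he : Rep e) :
    e ⊥ = ⊥ := by
  obtain ⟨s, hs⟩ := he.span ∅
  rw [image_empty, sSup_empty] at hs
  have h1 : e ⊥ ≤ e s := (he.le_iff _ _).2 bot_le
  rw [hs] at h1
  rw [eq_bot_iff]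
  refine h1.trans ?_
  refine Submodule.topologicalClosure_minimal _ le_rfl ?_
  rw [Submodule.bot_coe]
  exact isClosed_singleton

lemma Rep.inj {B : Type*} [BooleanAlgebra B] {e : B → Submodule ℂ H} (he : Rep e) {a b : B}
    (h : e a = e b) : a = b :=
  le_antisymm ((he.le_iff _ _).1 h.le) ((he.le_iff _ _).1 h.ge)

variable {B : Type*} [BooleanAlgebra B] {e : B → Submodule ℂ H} (he : Rep e) (N : B)

include he

lemma Rep.exists_lub (a : ℕ → Set.Iic N) : ∃ s : Set.Iic N, IsLUB (range a) s ∧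
    e s.1 = (⨆ n, e (a n).1).topologicalClosure := by
  obtain ⟨s, hs⟩ := he.span (range fun n => (a n).1)
  have e1 : sSup (e '' range fun n => (a n).1) = ⨆ n, e (a n).1 := by
    rw [← range_comp, sSup_range]
    rfl
  rw [e1] at hs
  have h1 : ∀ n, (a n).1 ≤ s := fun n => by
    rw [← he.le_iff, hs]
    exact (le_iSup (fun n => e (a n).1) n).trans (Submodule.le_topologicalClosure _)
  have h2 : ∀ c : B, (∀ n, (a n).1 ≤ c) → s ≤ c := fun c hc => by
    rw [← he.le_iff, hs]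
    refine Submodule.topologicalClosure_minimal _ (iSup_le fun n => ?_) (he.closed c)
    exact (he.le_iff _ _).2 (hc n)
  refine ⟨⟨s, h2 N fun n => (a n).2⟩, ⟨?_, ?_⟩, hs⟩
  · rintro _ ⟨n, rfl⟩
    exact h1 n
  · intro c hc
    exact h2 c.1 fun n => hc ⟨n, rfl⟩

lemma Rep.exists_glb (a : ℕ → Set.Iic N) : ∃ g : Set.Iic N, IsGLB (range a) g ∧
    e g.1 = ⨅ n, e (a n).1 := by
  obtain ⟨g, hg⟩ := he.sInf_mem (range fun n => (a n).1)
  have e1 : sInf (e '' range fun n => (a n).1) = ⨅ n, e (a n).1 := by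
    rw [← range_comp, sInf_range]
    rfl
  rw [e1] at hg
  have h1 : ∀ n, g ≤ (a n).1 := fun n => by
    rw [← he.le_iff, hg]
    exact iInf_le (fun n => e (a n).1) n
  refine ⟨⟨g, (h1 0).trans (a 0).2⟩, ⟨?_, ?_⟩, hg⟩
  · rintro _ ⟨n, rfl⟩
    exact h1 n
  · intro c hc
    show c.1 ≤ g
    rw [← he.le_iff, hg]
    exact le_iInf fun n => (he.le_iff _ _).2 (hc ⟨n, rfl⟩)

lemma Rep.sigmaLat : SigmaLat (Set.Iic N) where
  lub := fun a _ => by
    obtain ⟨s, hs, _⟩ := he.exists_lub N a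
    exact ⟨s, hs⟩
  glb := fun a _ => by
    obtain ⟨g, hg, _⟩ := he.exists_glb N a
    exact ⟨g, hg⟩
  cod := by
    intro a g b _ hg
    constructor
    · rintro _ ⟨n, rfl⟩
      exact sup_le_sup_left (hg.1 ⟨n, rfl⟩) b
    · intro c hc
      have h1 : ∀ n, c.1 \ b.1 ≤ (a n).1 := by
        intro n
        rw [sdiff_le_iff]
        exact hc ⟨n, rfl⟩
      have h2 : (⟨c.1 \ b.1, sdiff_le.trans c.2⟩ : Set.Iic N) ≤ g := by
        apply hg.2
        rintro _ ⟨n, rfl⟩
        exact h1 n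
      have h3 : c.1 \ b.1 ≤ g.1 := h2
      rw [sdiff_le_iff] at h3
      exact h3

variable [CompleteSpace H]

lemma Rep.contCap (x : ℕ → H) : ContCap (fun M : Set.Iic N => scp x (e M.1)) where
  mono := fun a b hab => scp_mono x ((he.le_iff _ _).2 hab)
  bot := by
    show scp x (e ⊥) = 0
    rw [he.bot, scp_bot]
  up := by
    intro a s ha hs
    obtain ⟨t, ht, hte⟩ := he.exists_lub N a
    have hst : s = t := hs.unique ht
    subst hst
    refine scp_tendsto x _ _ fun y => ?_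
    rw [hte, cp_closure]
    exact cp_tend_up _ (fun m n hmn => (he.le_iff _ _).2 (ha hmn)) y
  down := by
    intro a g ha hg
    obtain ⟨t, ht, hte⟩ := he.exists_glb N a
    have hst : g = t := hg.unique ht
    subst hst
    refine scp_tendsto x _ _ fun y => ?_
    rw [hte]
    exact cp_tend_down _ (fun m n hmn => (he.le_iff _ _).2 (ha hmn)) (fun n => he.closed _) y

theorem Rep.submeasure (x : ℕ → H) (hx : ∀ L, L ≤ N → (∀ n, x n ∈ (e L)ᗮ) → L = ⊥) :
    ∃ ν : Set.Iic N → ℝ, (∀ a, 0 ≤ ν a) ∧ (∀ a, ν a = 0 ↔ a = ⊥) ∧ Monotone ν ∧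
      (∀ a b, ν (a ⊔ b) ≤ ν a + ν b) ∧
      ∀ a : ℕ → Set.Iic N, Antitone a → IsGLB (range a) ⊥ →
        Tendsto (fun n => ν (a n)) atTop (𝓝 0) := by
  refine exists_submeasure (he.sigmaLat N) (he.contCap N x) (fun a ha => ?_)
    (fun a => scp_lt x (e a.1))
  have h1 := hx a.1 a.2 fun n => scp_eq_zero ha n
  exact Subtype.ext h1

omit [CompleteSpace H] in
lemma Rep.local_vector {M : B} (hM : M ≠ ⊥) : ∃ N : B, N ≠ ⊥ ∧ N ≤ M ∧
    ∃ x : ℕ → H, ∀ L, L ≤ N → (∀ n, x n ∈ (e L)ᗮ) → L = ⊥ := by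
  have h1 : e M ≠ ⊥ := by
    rw [← he.bot]
    intro h
    exact hM (he.inj h)
  obtain ⟨v, hv, hv0⟩ := Submodule.exists_mem_ne_zero_of_ne_bot h1
  obtain ⟨Z, hZ⟩ := he.span {L | v ∈ (e L)ᗮ}
  have hvZ : v ∈ (e Z)ᗮ := by
    rw [hZ, Submodule.orthogonal_closure, ← Submodule.sInf_orthogonal]
    rw [Submodule.mem_iInf]
    intro K
    rw [Submodule.mem_iInf]
    rintro ⟨L, hL, rfl⟩
    exact hL
  have hZmax : ∀ L : B, v ∈ (e L)ᗮ → L ≤ Z := by
    intro L hL
    rw [← he.le_iff, hZ]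
    exact le_clSpan ⟨L, hL, rfl⟩
  refine ⟨M ⊓ Zᶜ, ?_, inf_le_left, fun _ => v, ?_⟩
  · intro h
    have h2 : M ≤ Z := (disjoint_compl_right_iff (x := M) (y := Z)).1 (disjoint_iff.2 h)
    have h3 : v ∈ e Z := (he.le_iff _ _).2 h2 hv
    have h4 := (Submodule.mem_orthogonal _ _).1 hvZ v h3
    exact hv0 (inner_self_eq_zero.1 h4)
  · intro L hL h
    have h2 : L ≤ Z := hZmax L (h 0)
    have h3 : L ≤ Zᶜ := hL.trans inf_le_right
    rw [← le_bot_iff]
    calc L ≤ Z ⊓ Zᶜ := le_inf h2 h3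
      _ = ⊥ := inf_compl_eq_bot

end appl

end Pool.Agent.Lib.MP_44afb3_an
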